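import Pool.Agent.Helper60.PW.Final

set_option autoImplicit false

namespace Pool.Agent.Results.MP_124889_co.AnyThreeReals

/-- A graph is nice if no connected component has exactly two vertices, that is, if it has no
isolated edge. -/
def Nice {V : Type*} (G : SimpleGraph V) : Prop :=
  ∀ C : G.ConnectedComponent, C.supp.ncard ≠ 2

/-- The weighted degree of `v`: the sum of the weights of the edges of `G` incident with `v`. -/
noncomputable def weightedDegree {V : Type*} (G : SimpleGraph V) (w : Sym2 V → ℝ) (v : V) : ℝ :=
  ∑ᶠ e ∈ G.incidenceSet v, w e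

/-- For all pairwise distinct real numbers `a`, `b`, `c` every finite nice graph has an edge
weighting with values in `{a, b, c}` such that adjacent vertices have different weighted
degrees. -/
theorem result.{u} :
    ∀ (V : Type u) [Finite V] (G : SimpleGraph V), Nice G →
      ∀ a b c : ℝ, a ≠ b → b ≠ c → a ≠ c →
        ∃ w : Sym2 V → ℝ, (∀ e ∈ G.edgeSet, w e ∈ ({a, b, c} : Set ℝ)) ∧
          ∀ u v : V, G.Adj u v → weightedDegree G w u ≠ weightedDegree G w v := by
  intro V _ G hG a b c hab hbc hac
  obtain ⟨w, hw1, hw2⟩ := PoolPW.main_result G (PoolPW.nice_nbr G hG) a b c hab hac hbc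
  refine ⟨w, ?_, ?_⟩
  · intro e he
    simpa using hw1 e he
  · intro u v huv
    unfold weightedDegree
    rw [PoolPW.sum_incidence, PoolPW.sum_incidence]
    exact hw2 u v huv

end Pool.Agent.Results.MP_124889_co.AnyThreeReals
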